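import Mathlib
import Pool.Agent.T2h96.ST.Fin

/-!
# Profinite rigidity of `SL (n, ℤ)` among groups generated by `n` subgroups, any `n - 1` of which
generate a nilpotent group

The group `SL (n, ℤ)`, `n ≥ 3`, is generated by the `n` root subgroups `1 + ℤ E_{k+1,k}`, `k` modulo
`n`, and any `n - 1` of them generate a nilpotent group (a conjugate of the group of unitriangular
matrices). More generally every quotient of a Steinberg group `St_n (R)` of a ring `R` is generated
by `n` subgroups with this property.

Theorem. Let `n ≥ 3` and let `Λ` be a finitely generated residually finite group with the same finite
quotients as `SL (n, ℤ)`. Suppose that `Λ` is generated by `n` subgroups `N_1, …, N_n` such that any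
`n - 1` of them generate a subgroup which is nilpotent, or at least has nilpotent image in every
finite quotient of `Λ`. Then `Λ` is isomorphic to `SL (n, ℤ)`. Nothing is assumed on the relations
between the `N_i`, and nothing on their elements: they may be periodic.

Steps of the proof.
(1) Let `f` be a surjection from `Λ` to `SL (n, F_ℓ)`. The elements of the `N_i` are products of
commuting `ℓ`-parts and `ℓ'`-parts, all `ℓ`-parts commute with all `ℓ'`-parts, and the `ℓ`-parts of
any `n - 1` of the `N_i` generate an `ℓ`-group, which has a fixed vector `b_i`. Either all `ℓ`-parts
are trivial, or the `b_i` form a basis and the images of the `N_i` are, up to scalars, in the groups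
`1 + F_ℓ E_{k+1,k}` (an argument with choice functions). In the first case the orders of the
elements of `N_i` have only prime divisors `≤ n` (eigenvalues of central commutators).
(2) Let `P_i` be the group generated by the `N_j`, `j ≠ i`, and suppose that some `P_i` has an element
of infinite order. There are infinitely many primes `ℓ` for which elements of `SL (n, F_ℓ)` of such
orders have bounded order. All homomorphisms from `SL (n, ℤ)` to `SL (n, F)`, `F` a finite field of
large characteristic, have bounded image or are standard up to conjugation and inverse transpose (by
the congruence subgroup property). By specialisation and the embedding of `Λ` in the product of the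
`SL (n, ℤ_q)`, some element of infinite order survives for all large `ℓ`. So the second case of (1)
occurs for infinitely many `ℓ`.
(3) The ultraproduct gives a representation `ρ` over a field of characteristic zero, such that the
elements of `N_i` are mapped to scalar multiples of `1 + c E_{k+1,k}`. The traces of two
representations of `Λ` of dimension `n` with infinite image agree up to inversion (by (2)). Hence the
`c` are rational, and the products `a b` with `1 + a E_ij`, `1 + b E_ji` in the image are integers.
A suitable diagonal conjugation makes `ρ` integral, and as `Λ` is perfect all the coefficients in one
place have greatest common divisor one. So `Λ` maps onto `SL (n, ℤ)`, and a surjection between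
such groups is injective.
(4) Now suppose that all `P_i` are periodic. As `SL (n, F_2)` is simple, there is a prime `p` such that
the reduction modulo `p` of a `p`-adic representation `ρ` has the second form in (1) (otherwise the
comparison of traces gives a contradiction). If `p` is odd then the commutator of adjacent generators
is an element of finite order whose reduction is an elementary matrix; this is impossible for
`p ≥ 5`, and for `p = 3` it gives a Heisenberg group over `ℤ_3` which does not exist. Let `p = 2`. An
element of `ρ (P_i)` with trivial reduction is `1` or `-1` (commuting idempotents over `F_2`). For
`n ≥ 5` the `2`-elements of `P_i` generate a group with at least `2^(n(n-1)/2)` elements modulo `2`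
which embeds in `SL (n, F_3)`, but this group has no such `2`-subgroup. For `n = 4` there are 16
elements of `P_i` with pairwise traces zero, they form a basis of the matrices, and the expansion of
a further element gives `48 = 16`. For `n = 3` the image of `Λ` in all `SL (3, ℤ_q)` is generated by
three involutions with products of order `4`, and the Gram determinant of the corresponding vectors
is `c + 8 / c - 4`, a unit for all primes `q`; the comparison of traces shows that this is the same
rational integer for all `q`, so it is `1` or `-1`, and then `c` does not exist for `q = 3` or `q = 5`.

The tasks of this project were done by helper7, helper13, helper16, helper21, helper25, helper31,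
helper32, helper35, helper41, helper43, helper45, helper49, helper53, helper57, helper60, helper64,
helper67, helper71, helper76, helper82, helper84, helper85, helper89, helper96 and lead.
-/

set_option autoImplicit false

namespace Pool.Agent.Results.MP_a2a22c_al.NilpotentSimplices

/-- Let `n ≥ 3`, and let `Λ` be a finitely generated residually finite group with the same finite
quotients as `SL (n, ℤ)`, generated by `n` subgroups `N i` such that for every `i` the subgroup
generated by the `N j`, `j ≠ i`, has nilpotent image in every finite quotient of `Λ` (for instance,
is nilpotent). Then `Λ` is isomorphic to `SL (n, ℤ)`. -/
theorem result : ∀ n : ℕ, 3 ≤ n → ∀ (Λ : Type) [Group Λ], Group.FG Λ →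
    (∀ g : Λ, g ≠ 1 → ∃ H : Subgroup Λ, H.index ≠ 0 ∧ g ∉ H) →
    (∀ (Q : Type) [Group Q] [Finite Q],
      (∃ f : Λ →* Q, Function.Surjective f) ↔
      (∃ f : Matrix.SpecialLinearGroup (Fin n) ℤ →* Q, Function.Surjective f)) →
    ∀ N : Fin n → Subgroup Λ, (⨆ i, N i) = ⊤ →
    (∀ i : Fin n, ∀ (Q : Type) [Group Q] [Finite Q] (f : Λ →* Q),
      Group.IsNilpotent ((⨆ (j : Fin n) (_ : j ≠ i), N j).map f)) →
    Nonempty (Λ ≃* Matrix.SpecialLinearGroup (Fin n) ℤ) := by
  intro n hn Λ _ hFG hRF hFQ N hN hnil
  refine Pool.Agent.T2h96.ST.m_MAXA n hn Λ hFG hRF hFQ N hN (fun Q _ _ f i => ?_)
  exact hnil i Q f

end Pool.Agent.Results.MP_a2a22c_al.NilpotentSimplices
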