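import Mathlib
import Pool.Agent.T2h61.PR.T_TOP
import Pool.Agent.T2h61.PR.T_MZ
import Pool.Agent.T2h61.PR.T_PAD
import Pool.Agent.T2h61.PR.T_IRR
import Pool.Agent.T2h61.PR.T_INF
import Pool.Agent.T2h61.PR.T_AB
import Pool.Agent.T2h61.PR.T_FIN
import Pool.Agent.T2h61.PR.T_P
import Pool.Agent.T2h61.PR.T_CONJ
import Pool.Agent.T2h61.PR.T_INTEG
import Pool.Agent.T2h61.PR.T_FF
import Pool.Agent.T2h61.PR.T_CA

/-!
# Profinite rigidity of `SL (n, ℤ)` among the quotients of Steinberg groups over arbitrary rings

Let `m ≥ 3` and let `R` be an arbitrary associative ring with `1`. The Steinberg group `St_m (R)` is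
generated by elements `x_ij (a)`, `i ≠ j`, `a ∈ R`, with the relations
`x_ij (a + b) = x_ij (a) x_ij (b)`, `[x_ij (a), x_jk (b)] = x_ik (a b)` and
`[x_ij (a), x_kl (b)] = 1` for `j ≠ k`, `i ≠ l`. Its quotients include the elementary groups
`E_m (R)`, for instance the (noncommutative) universal lattices, and their quotients.

Theorem. Let `n, m ≥ 3`, and let `Λ` be a finitely generated residually finite group with the same
finite quotients as `SL (n, ℤ)`. If `Λ` is a quotient of `St_m (R)` then either `m = n` and `Λ` is
isomorphic to `SL (n, ℤ)`, or `n = m k` with `k ≥ 2` and `R` maps onto the matrix ring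
`M_k (F_p)` for every prime `p`. The second case is impossible for commutative rings, for `n < 2 m`,
and if `m` does not divide `n`. (In it one expects `Λ = SL_m (M_k (ℤ)) = SL (n, ℤ)`.)

Steps of the proof.
(1) For every prime `q` a compactness argument gives a homomorphism `ρ` from `Λ` to a dense subgroup
of `SL (n, ℤ_q)`; the only subspaces of `sl_n (ℚ_q)` invariant under conjugation are the trivial
ones.
(2) In characteristic `0` the eigenvalues of a central commutator are roots of unity, so
`x_ij (n! a)` is unipotent. If all these elements were trivial, then the image of `R` would be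
finite; as the Steinberg groups of finite rings are finite (by the centrality of `K_2`), this
contradicts the density. The logarithms of the `x_ij (n! a)` satisfy the Lie algebra version of the
relations and span `sl_n` together with their brackets. The elements
`∑_j [N_ij (1), N_ji (1)]` act with three eigenvalues only and give idempotents `e_i`, and so
`n = m k`, and up to conjugation and transposition `x_ij (a)` is `1 + E_ij ⊗ φ (a)` for a
homomorphism `φ` from `R` to `M_k`. This is integral, and by density `φ` is onto `M_k (F_q)`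
modulo `q`. (3) If `k = 1`, then `m = n` and `x_ij (a) = 1 + φ_q (a) E_ij` for ring
homomorphisms `φ_q` from `R` to `ℤ_q`. We may assume that `R` is finitely generated. Let `C` be the
image of `R` in `ℤ_q × ℤ_q'`. The finite quotients of `E_n (C)` are quotients of `SL (n, ℤ)`. By the
congruence subgroup property, two homomorphisms from `C` to a finite field of large characteristic
are equal; by the Nullstellensatz over `ℤ` this implies that `φ_q (a)` and `φ_q' (a)` are the same
rational number, which is an integer, as this holds for all `q'`. Hence `Λ` maps onto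
`SL (n, ℤ)`. (4) A surjection from a finitely generated residually finite group onto a group with
the same finite quotients is injective.

The tasks of this project were done by helper4, helper25, helper31, helper45, helper55, helper59
and helper61.
-/

set_option autoImplicit false

namespace Pool.Agent.Results.MP_a2a22c_al.QuotientsOfSteinbergGroups

open scoped commutatorElement

/-- The Steinberg relations for a family of elements `x i j a` of a group, `i ≠ j`, `a ∈ R` (the
elements `x i i a` play no role). -/
structure SteinbergRelations {m : ℕ} {R Λ : Type} [Ring R] [Group Λ]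
    (x : Fin m → Fin m → R → Λ) : Prop where
  add : ∀ i j, i ≠ j → ∀ a b, x i j (a + b) = x i j a * x i j b
  comm : ∀ i j k, i ≠ j → j ≠ k → i ≠ k → ∀ a b, ⁅x i j a, x j k b⁆ = x i k (a * b)
  commute : ∀ i j k l, i ≠ j → k ≠ l → j ≠ k → i ≠ l → ∀ a b, ⁅x i j a, x k l b⁆ = 1

open Pool.Agent.T2h61.PR Pool.Agent.Helper58.K2

lemma toSR {m : ℕ} {R Λ : Type} [Ring R] [Group Λ] {x : Fin m → Fin m → R → Λ}
    (h : SteinbergRelations x) : SR (fun i j a => if i = j then 1 else x i j a) where
  diag i a := by simp
  add i j a b := by
    by_cases hij : i = j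
    · simp [hij]
    · simp only [if_neg hij]; exact h.add i j hij a b
  comm i j k hij hjk hik a b := by
    simp only [if_neg hij, if_neg hjk, if_neg hik]
    exact h.comm i j k hij hjk hik a b
  commute i j k l hjk hil a b := by
    by_cases hij : i = j
    · simp [hij]
    · by_cases hkl : k = l
      · simp [hkl]
      · simp only [if_neg hij, if_neg hkl]
        exact commutatorElement_eq_one_iff_mul_comm.1 (h.commute i j k l hij hkl hjk hil a b)

/-- Let `n, m ≥ 3`, let `R` be any ring, and let `Λ` be a finitely generated residually finite group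
with the same finite quotients as `SL (n, ℤ)`, which is generated by elements `x_ij (a)`,
`i ≠ j ≤ m`, `a ∈ R`, satisfying the Steinberg relations. Then `m = n` and `Λ` is isomorphic to
`SL (n, ℤ)`, or `n = m k` with `k ≥ 2` and `R` maps onto `M_k (F_p)` for all primes `p`. -/
theorem result : ∀ n m : ℕ, 3 ≤ n → 3 ≤ m → ∀ (R : Type) [Ring R] (Λ : Type) [Group Λ],
    Group.FG Λ →
    (∀ g : Λ, g ≠ 1 → ∃ H : Subgroup Λ, H.index ≠ 0 ∧ g ∉ H) →
    (∀ (Q : Type) [Group Q] [Finite Q],
      (∃ f : Λ →* Q, Function.Surjective f) ↔
      (∃ f : Matrix.SpecialLinearGroup (Fin n) ℤ →* Q, Function.Surjective f)) →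
    ∀ x : Fin m → Fin m → R → Λ, SteinbergRelations x →
    Subgroup.closure {g | ∃ i j a, i ≠ j ∧ g = x i j a} = ⊤ →
    (m = n ∧ Nonempty (Λ ≃* Matrix.SpecialLinearGroup (Fin n) ℤ)) ∨
    (∃ k : ℕ, 2 ≤ k ∧ n = m * k ∧ ∀ p : ℕ, p.Prime →
      ∃ f : R →+* Matrix (Fin k) (Fin k) (ZMod p), Function.Surjective f) := by
  intro n m hn hm R _ Λ _ hFG hRF hS x hx hc
  have hSR := toSR hx
  have hc' : Subgroup.closure {g | ∃ i j a, g = (fun i j a => if i = j then 1 else x i j a) i j a}
      = ⊤ := by
    rw [eq_top_iff, ← hc, Subgroup.closure_le]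
    rintro _ ⟨i, j, a, hij, rfl⟩
    exact Subgroup.subset_closure ⟨i, j, a, by simp [hij]⟩
  have hBETA : S_BETA := beta ab fin
  have hIDE : S_IDE := ide p
  have hmz := fun (p : ℕ) (hp : p.Prime) =>
    @mz pad irr inf uni hBETA log inv hIDE n m hn hm R _ Λ _ hFG hS _ hSR hc' p ⟨hp⟩
  by_cases hk : ∃ k : ℕ, 2 ≤ k ∧ n = m * k
  · obtain ⟨k, hk2, hnk⟩ := hk
    refine Or.inr ⟨k, hk2, hnk, fun p hp => ?_⟩
    obtain ⟨k', hk', hf⟩ := hmz p hp
    have : k' = k := by
      rw [hnk] at hk'
      exact (Nat.eq_of_mul_eq_mul_left (by omega) hk').symm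
    subst this
    exact hf
  · have hST : S_ST := st uni hBETA log inv (str hIDE) conj
    have hHOM : S_HOM := hom pad irr inf hST integ
    refine Or.inl (top hHOM (ff uni) ca n m hn hm R (Or.inl fun k hk2 hnk => hk ⟨k, hk2, hnk⟩)
      Λ hFG hRF hS _ hSR hc')

end Pool.Agent.Results.MP_a2a22c_al.QuotientsOfSteinbergGroups
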